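import Pool.Agent.helper47.RA.Mink
import Pool.Agent.helper3.FT.AlgDefs

set_option autoImplicit false

/-!
# FT, modules A0r and A0i: the models of quadratic fields
-/

namespace Pool.Agent.helper3.FT

open NumberField Pool.Agent.helper47.RA

section Mink

variable {K : Type} [Field K] [NumberField K] {ω : 𝓞 K} {t k D : ℤ}

/-- weighted Minkowski for a real quadratic field, the first weight being the smaller one -/
lemma mink_real (hD : IsFund D) (ht : t = 0 ∨ t = 1) (hk : D = t + 4 * k)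
    (hω : ω * ω = k + t * ω) (σ₁ σ₂ : K →+* ℝ) (r : ℝ) (hr : σ₁ ω - σ₂ ω = r)
    (s : ℝ) (hs : 0 < s) (hrs : |r| = s)
    (I : Ideal (𝓞 K)) (hI : 0 < Ideal.absNorm I) (A B : ℝ) (hA : 0 < A) (hAB : A ≤ B)
    (h : 4 * s * Ideal.absNorm I ≤ A * B) :
    ∃ x ∈ I, x ≠ 0 ∧ |σ₁ x| ≤ A ∧ |σ₂ x| ≤ B := by
  obtain ⟨a, b, c, ha, hb, hc0, hcb, _, hN, hiff⟩ := exists_hnf ht hk hω I hI
  have hB : 0 < B := lt_of_lt_of_le hA hAB
  have haR : (0 : ℝ) < a := by exact_mod_cast ha
  have hbR : (0 : ℝ) < b := by exact_mod_cast hb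
  have hNR : (a : ℝ) ^ 2 * b ≤ Ideal.absNorm I := by exact_mod_cast hN
  have h4 : 4 * s * ((a : ℝ) ^ 2 * b) ≤ A * B :=
    (mul_le_mul_of_nonneg_left hNR (by positivity)).trans h
  set V := ⌊B / (2 * a * s)⌋₊ with hV
  rcases Nat.eq_zero_or_pos V with hV0 | hV0
  · rw [hV, Nat.floor_eq_zero, div_lt_one (by positivity)] at hV0
    have h5 : (a : ℝ) * b ≤ A := by
      have h6 : (2 * a * s) * (2 * (a * b)) ≤ (2 * a * s) * A := by
        calc (2 * a * s) * (2 * ((a : ℝ) * b)) = 4 * s * ((a : ℝ) ^ 2 * b) := by ring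
          _ ≤ A * B := h4
          _ ≤ A * (2 * a * s) := mul_le_mul_of_nonneg_left hV0.le hA.le
          _ = _ := by ring
      have h7 := le_of_mul_le_mul_left h6 (by positivity)
      nlinarith [mul_pos haR hbR]
    refine ⟨((a * b : ℤ) : 𝓞 K), ?_, ?_, ?_, ?_⟩
    · have := (hiff (a * b) 0).2 ⟨1, 0, by ring, by ring⟩
      simpa using this
    · have : ((a * b : ℤ)) ≠ 0 := by positivity
      exact_mod_cast this
    all_goals
      simp only [map_intCast]
      push_cast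
      rw [abs_of_pos (by positivity)]
      linarith
  · obtain ⟨j, v, hv0, hvV, hap⟩ := Real.exists_int_int_abs_mul_sub_le
      (((c : ℝ) + σ₁ ω) / b) hV0
    have hV1 : B / (2 * a * s) < V + 1 := Nat.lt_floor_add_one _
    have hV2 : (V : ℝ) ≤ B / (2 * a * s) := Nat.floor_le (by positivity)
    set x : 𝓞 K := ((-(a * b * j) + a * c * v : ℤ) : 𝓞 K) + ((a * v : ℤ) : 𝓞 K) * ω with hx
    have e1 : σ₁ x = a * (b * (v * (((c : ℝ) + σ₁ ω) / b) - j)) := by
      simp only [hx, map_add, map_mul, map_intCast]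
      push_cast
      field_simp
      ring
    have e2 : σ₂ x = σ₁ x - a * (v * r) := by
      simp only [hx, map_add, map_mul, map_intCast]
      rw [← hr]
      push_cast
      ring
    have hvR : (0 : ℝ) < v := by exact_mod_cast hv0
    have hvV' : (v : ℝ) ≤ V := by exact_mod_cast hvV
    have hb1 : |σ₁ x| ≤ A / 2 := by
      rw [e1, abs_mul, abs_of_pos haR, abs_mul, abs_of_pos hbR]
      have hap' : |(v : ℝ) * (((c : ℝ) + σ₁ ω) / b) - j| ≤ (2 * a * s) / B := by
        refine hap.trans ?_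
        rw [div_le_div_iff₀ (by positivity) hB]
        rw [div_lt_iff₀ (by positivity)] at hV1
        linarith
      calc (a : ℝ) * (b * |(v : ℝ) * (((c : ℝ) + σ₁ ω) / b) - j|)
          ≤ a * (b * ((2 * a * s) / B)) := by
            refine mul_le_mul_of_nonneg_left ?_ haR.le
            exact mul_le_mul_of_nonneg_left hap' hbR.le
        _ = (4 * s * ((a : ℝ) ^ 2 * b)) / B / 2 := by field_simp; ring
        _ ≤ A / 2 := by
            refine div_le_div_of_nonneg_right ?_ (by norm_num)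
            rw [div_le_iff₀ hB]
            exact h4
    have hb2 : (a : ℝ) * (v * s) ≤ B / 2 := by
      calc (a : ℝ) * (v * s) ≤ a * ((B / (2 * a * s)) * s) := by
            refine mul_le_mul_of_nonneg_left ?_ haR.le
            exact mul_le_mul_of_nonneg_right (hvV'.trans hV2) hs.le
        _ = B / 2 := by field_simp
    refine ⟨x, ?_, ?_, ?_, ?_⟩
    · exact (hiff _ _).2 ⟨-j, v, rfl, by ring⟩
    · intro h0
      have := (lin_indep hD ht hk hω h0).2
      have h1 : (a : ℤ) * v ≠ 0 := by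
        have : (0 : ℤ) < a := by exact_mod_cast ha
        positivity
      exact h1 this
    · linarith
    · rw [e2]
      refine (abs_sub _ _).trans ?_
      have h6 : |(a : ℝ) * (v * r)| = a * (v * s) := by
        rw [abs_mul, abs_mul, abs_of_pos haR, abs_of_pos hvR, hrs]
      rw [h6]
      linarith

/-- Minkowski for an imaginary quadratic field -/
lemma mink_imag (hD : IsFund D) (ht : t = 0 ∨ t = 1) (hk : D = t + 4 * k)
    (hω : ω * ω = k + t * ω) (σ : K →+* ℂ) (s : ℝ) (hs : 0 < s)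
    (hσ : σ ω = ((t : ℂ) + Complex.I * s) / 2)
    (I : Ideal (𝓞 K)) (hI : 0 < Ideal.absNorm I) (A : ℝ) (hA : 0 < A)
    (h : 4 * s * Ideal.absNorm I ≤ A * A) :
    ∃ x ∈ I, x ≠ 0 ∧ ‖σ x‖ ≤ A := by
  obtain ⟨a, b, c, ha, hb, hc0, hcb, _, hN, hiff⟩ := exists_hnf ht hk hω I hI
  have haR : (0 : ℝ) < a := by exact_mod_cast ha
  have hbR : (0 : ℝ) < b := by exact_mod_cast hb
  have hbC : (b : ℂ) ≠ 0 := by exact_mod_cast hb.ne'
  have hNR : (a : ℝ) ^ 2 * b ≤ Ideal.absNorm I := by exact_mod_cast hN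
  have h4 : 4 * s * ((a : ℝ) ^ 2 * b) ≤ A * A :=
    (mul_le_mul_of_nonneg_left hNR (by positivity)).trans h
  set V := ⌊A / (a * s)⌋₊ with hV
  rcases Nat.eq_zero_or_pos V with hV0 | hV0
  · rw [hV, Nat.floor_eq_zero, div_lt_one (by positivity)] at hV0
    have h5 : (a : ℝ) * b ≤ A := by
      have h6 : (a * s) * (4 * (a * b)) ≤ (a * s) * A := by
        calc (a * s) * (4 * ((a : ℝ) * b)) = 4 * s * ((a : ℝ) ^ 2 * b) := by ring
          _ ≤ A * A := h4
          _ ≤ A * (a * s) := mul_le_mul_of_nonneg_left hV0.le hA.le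
          _ = _ := by ring
      have h7 := le_of_mul_le_mul_left h6 (by positivity)
      nlinarith [mul_pos haR hbR]
    refine ⟨((a * b : ℤ) : 𝓞 K), ?_, ?_, ?_⟩
    · have := (hiff (a * b) 0).2 ⟨1, 0, by ring, by ring⟩
      simpa using this
    · have : ((a * b : ℤ)) ≠ 0 := by positivity
      exact_mod_cast this
    · simp only [map_intCast]
      push_cast
      rw [norm_mul, Complex.norm_natCast, Complex.norm_natCast]
      exact h5
  · obtain ⟨j, v, hv0, hvV, hap⟩ := Real.exists_int_int_abs_mul_sub_le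
      (((c : ℝ) + t / 2) / b) hV0
    have hV1 : A / (a * s) < V + 1 := Nat.lt_floor_add_one _
    have hV2 : (V : ℝ) ≤ A / (a * s) := Nat.floor_le (by positivity)
    set x : 𝓞 K := ((-(a * b * j) + a * c * v : ℤ) : 𝓞 K) + ((a * v : ℤ) : 𝓞 K) * ω with hx
    have e1 : σ x = ((a * (b * (v * (((c : ℝ) + t / 2) / b) - j)) : ℝ) : ℂ) +
        ((a * v * s / 2 : ℝ) : ℂ) * Complex.I := by
      simp only [hx, map_add, map_mul, map_intCast]
      rw [hσ]
      push_cast
      field_simp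
      ring
    have hvR : (0 : ℝ) < v := by exact_mod_cast hv0
    have hvV' : (v : ℝ) ≤ V := by exact_mod_cast hvV
    have hb1 : |(a : ℝ) * (b * (v * (((c : ℝ) + t / 2) / b) - j))| ≤ A / 4 := by
      rw [abs_mul, abs_of_pos haR, abs_mul, abs_of_pos hbR]
      have hap' : |(v : ℝ) * (((c : ℝ) + t / 2) / b) - j| ≤ (a * s) / A := by
        refine hap.trans ?_
        rw [div_le_div_iff₀ (by positivity) hA]
        rw [div_lt_iff₀ (by positivity)] at hV1
        linarith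
      calc (a : ℝ) * (b * |(v : ℝ) * (((c : ℝ) + t / 2) / b) - j|)
          ≤ a * (b * ((a * s) / A)) := by
            refine mul_le_mul_of_nonneg_left ?_ haR.le
            exact mul_le_mul_of_nonneg_left hap' hbR.le
        _ = (4 * s * ((a : ℝ) ^ 2 * b)) / A / 4 := by field_simp
        _ ≤ A / 4 := by
            refine div_le_div_of_nonneg_right ?_ (by norm_num)
            rw [div_le_iff₀ hA]
            exact h4
    have hb2 : (a : ℝ) * v * s / 2 ≤ A / 2 := by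
      have : (a : ℝ) * (v * s) ≤ A := by
        calc (a : ℝ) * (v * s) ≤ a * ((A / (a * s)) * s) := by
              refine mul_le_mul_of_nonneg_left ?_ haR.le
              exact mul_le_mul_of_nonneg_right (hvV'.trans hV2) hs.le
          _ = A := by field_simp
      linarith
    refine ⟨x, ?_, ?_, ?_⟩
    · exact (hiff _ _).2 ⟨-j, v, rfl, by ring⟩
    · intro h0
      have := (lin_indep hD ht hk hω h0).2
      have h1 : (a : ℤ) * v ≠ 0 := by
        have : (0 : ℤ) < a := by exact_mod_cast ha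
        positivity
      exact h1 this
    · rw [e1]
      refine (norm_add_le _ _).trans ?_
      rw [norm_mul, Complex.norm_I, mul_one, Complex.norm_real, Complex.norm_real,
        Real.norm_eq_abs, Real.norm_eq_abs, abs_of_nonneg (a := (a : ℝ) * v * s / 2) (by positivity)]
      linarith

end Mink

section Model

variable {k t : ℤ}

open QuadraticAlgebra

variable [hF : Fact (∀ r : ℚ, r ^ 2 ≠ (k : ℚ) + (t : ℚ) * r)]

/-- the conjugation on the ring of integers -/
noncomputable def conjO : 𝓞 (QuadraticAlgebra ℚ (k : ℚ) (t : ℚ)) ≃+*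
    𝓞 (QuadraticAlgebra ℚ (k : ℚ) (t : ℚ)) :=
  RingOfIntegers.mapRingEquiv (starRingAut (R := QuadraticAlgebra ℚ (k : ℚ) (t : ℚ)))

lemma conjO_coe (a : 𝓞 (QuadraticAlgebra ℚ (k : ℚ) (t : ℚ))) :
    ((conjO a : 𝓞 (QuadraticAlgebra ℚ (k : ℚ) (t : ℚ))) : QuadraticAlgebra ℚ (k : ℚ) (t : ℚ)) =
      star (a : QuadraticAlgebra ℚ (k : ℚ) (t : ℚ)) := rfl

lemma conjO_om : conjO (om : 𝓞 (QuadraticAlgebra ℚ (k : ℚ) (t : ℚ))) =
    (t : 𝓞 (QuadraticAlgebra ℚ (k : ℚ) (t : ℚ))) - om := by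
  apply RingOfIntegers.ext
  rw [conjO_coe]
  simp only [map_sub, map_intCast, om_coe]
  apply QuadraticAlgebra.ext <;> simp

/-- the complex embedding, for `s² = - D` -/
noncomputable def embC (s : ℝ) (hs : s ^ 2 = -((t : ℝ) + 4 * k)) (ht : t ^ 2 = t) :
    QuadraticAlgebra ℚ (k : ℚ) (t : ℚ) →ₐ[ℚ] ℂ :=
  QuadraticAlgebra.lift ⟨((t : ℂ) + Complex.I * s) / 2, by
    have h1 : (t : ℂ) ^ 2 = t := by exact_mod_cast ht
    have h2 : (s : ℂ) ^ 2 = -((t : ℂ) + 4 * k) := by exact_mod_cast hs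
    have h3 := Complex.I_sq
    rw [Rat.smul_def, Rat.smul_def]
    push_cast
    linear_combination (-1 / 4) * h2 + (-1 / 4) * h1 + (1 / 4) * (s : ℂ) ^ 2 * h3⟩

lemma embC_apply (s : ℝ) (hs : s ^ 2 = -((t : ℝ) + 4 * k)) (ht : t ^ 2 = t)
    (z : QuadraticAlgebra ℚ (k : ℚ) (t : ℚ)) :
    embC s hs ht z = z.re + z.im * (((t : ℂ) + Complex.I * s) / 2) := by
  simp [embC, QuadraticAlgebra.lift, Algebra.smul_def]
  rfl

end Model

lemma exists_tk {D : ℤ} (hD : IsFund D) : ∃ t k : ℤ, (t = 0 ∨ t = 1) ∧ D = t + 4 * k := by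
  rcases hD with ⟨h, _, _⟩ | ⟨m, h, _⟩
  · exact ⟨1, D / 4, Or.inr rfl, by omega⟩
  · exact ⟨0, m, Or.inl rfl, by omega⟩

/-- A0r -/
theorem exists_QF_pos (D : ℤ) (hD : IsFund D) (hpos : 0 < D) :
    ∃ (K : Type) (_ : Field K) (_ : NumberField K) (Q : QF K), Module.finrank ℚ K = 2 ∧
      NumberField.discr K = D ∧ Q.D = D := by
  obtain ⟨t, k, ht, hk⟩ := exists_tk hD
  have ht2 : t ^ 2 = t := by rcases ht with rfl | rfl <;> norm_num
  have := fact_of hD ht2 hk
  have hDR : (0 : ℝ) ≤ D := by exact_mod_cast hpos.le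
  have hs1 : (√(D : ℝ)) ^ 2 = (t : ℝ) + 4 * k := by
    rw [Real.sq_sqrt hDR, hk]; push_cast; ring
  have hs2 : (-√(D : ℝ)) ^ 2 = (t : ℝ) + 4 * k := by
    rw [neg_sq, hs1]
  have hspos : 0 < √(D : ℝ) := Real.sqrt_pos.2 (by exact_mod_cast hpos)
  have hω : (om : 𝓞 (QuadraticAlgebra ℚ (k : ℚ) (t : ℚ))) * om =
      (k : 𝓞 (QuadraticAlgebra ℚ (k : ℚ) (t : ℚ))) +
        (t : 𝓞 (QuadraticAlgebra ℚ (k : ℚ) (t : ℚ))) * om := by
    apply RingOfIntegers.ext
    simp only [map_mul, map_add, map_intCast, om_coe]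
    rw [QuadraticAlgebra.omega_mul_omega_eq_add]
    apply QuadraticAlgebra.ext <;> simp
  set σ₁ : QuadraticAlgebra ℚ (k : ℚ) (t : ℚ) →+* ℝ := (emb _ hs1 ht2).toRingHom with hσ₁
  set σ₂ : QuadraticAlgebra ℚ (k : ℚ) (t : ℚ) →+* ℝ := (emb _ hs2 ht2).toRingHom with hσ₂
  have a1 : ∀ z, σ₁ z = z.re + z.im * (((t : ℝ) + √(D : ℝ)) / 2) := emb_apply _ hs1 ht2
  have a2 : ∀ z, σ₂ z = z.re + z.im * (((t : ℝ) + -√(D : ℝ)) / 2) := emb_apply _ hs2 ht2
  have c1 : ∀ z : QuadraticAlgebra ℚ (k : ℚ) (t : ℚ), σ₁ (star z) = σ₂ z := by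
    intro z
    rw [a1, a2, QuadraticAlgebra.re_star, QuadraticAlgebra.im_star]
    push_cast
    ring
  have c2 : ∀ z : QuadraticAlgebra ℚ (k : ℚ) (t : ℚ), σ₂ (star z) = σ₁ z := by
    intro z
    rw [a1, a2, QuadraticAlgebra.re_star, QuadraticAlgebra.im_star]
    push_cast
    ring
  have h1 : σ₁ (om : 𝓞 (QuadraticAlgebra ℚ (k : ℚ) (t : ℚ))) = ((t : ℝ) + √D) / 2 := by
    rw [a1, om_coe]
    simp
  have h2 : σ₂ (om : 𝓞 (QuadraticAlgebra ℚ (k : ℚ) (t : ℚ))) = ((t : ℝ) - √D) / 2 := by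
    rw [a2, om_coe]
    simp
    ring
  have hnorm : ∀ a : 𝓞 (QuadraticAlgebra ℚ (k : ℚ) (t : ℚ)),
      ((Algebra.norm ℤ a : ℤ) : ℝ) = σ₁ a * σ₂ a := by
    intro a
    rw [a1, a2]
    have h1 : ((Algebra.norm ℤ a : ℤ) : ℚ) = _ := Algebra.coe_norm_int a
    rw [norm_eq] at h1
    have h2 : ((Algebra.norm ℤ a : ℤ) : ℝ) = (((Algebra.norm ℤ a : ℤ) : ℚ) : ℝ) := by simp
    rw [h2, h1]
    push_cast
    have h3 : (t : ℝ) ^ 2 = t := by exact_mod_cast ht2
    linear_combination ((a : QuadraticAlgebra ℚ (k : ℚ) (t : ℚ)).im : ℝ) ^ 2 * (1 / 4) * (hs1 - h3)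
  refine ⟨QuadraticAlgebra ℚ (k : ℚ) (t : ℚ), inferInstance, inferInstance,
    { D := D
      hD := hD
      ω := om
      t := t
      k := k
      ht := ht
      hk := hk
      hω := hω
      hspan := coords_int hD ht2 hk
      cj := conjO
      cj_ω := conjO_om
      v₁ := fun a => |(σ₁.comp (algebraMap (𝓞 _) _)) a|
      v₂ := fun a => |(σ₂.comp (algebraMap (𝓞 _) _)) a|
      v₁_nonneg := fun a => abs_nonneg _
      v₂_nonneg := fun a => abs_nonneg _
      v₁_mul := fun a b => by rw [map_mul, abs_mul]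
      v₂_mul := fun a b => by rw [map_mul, abs_mul]
      v₁_add := fun a b => by rw [map_add]; exact abs_add_le _ _
      v₂_add := fun a b => by rw [map_add]; exact abs_add_le _ _
      v₁_int := fun m => by rw [map_intCast]
      v₂_int := fun m => by rw [map_intCast]
      v₁_cj := fun a => congrArg (fun z => |z|) (c1 a)
      v₂_cj := fun a => congrArg (fun z => |z|) (c2 a)
      hnorm := fun a => by
        show _ = |σ₁ a| * |σ₂ a|
        rw [Ideal.absNorm_span_singleton, ← abs_mul, ← hnorm, Nat.cast_natAbs]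
        push_cast
        rfl
      himag := fun h => absurd h (not_lt.2 hpos.le)
      hmink := ?_ },
    QuadraticAlgebra.finrank_eq_two _ _, discr_eq hD ht2 hk, rfl⟩
  intro I hI A B hA hB hAB _
  rw [abs_of_nonneg hDR] at hAB
  rcases le_total A B with h | h
  · obtain ⟨x, hx, hx0, hx1, hx2⟩ := mink_real hD ht hk hω σ₁ σ₂ (√D) (by rw [h1, h2]; ring)
      (√D) hspos (abs_of_pos hspos) I hI A B hA h hAB
    exact ⟨x, hx, hx0, hx1, hx2⟩
  · obtain ⟨x, hx, hx0, hx1, hx2⟩ := mink_real hD ht hk hω σ₂ σ₁ (-√D) (by rw [h1, h2]; ring)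
      (√D) hspos (by rw [abs_neg, abs_of_pos hspos]) I hI B A hB h (by linarith)
    exact ⟨x, hx, hx0, hx2, hx1⟩

/-- A0i -/
theorem exists_QF_neg (D : ℤ) (hD : IsFund D) (hneg : D < 0) :
    ∃ (K : Type) (_ : Field K) (_ : NumberField K) (Q : QF K), Module.finrank ℚ K = 2 ∧
      NumberField.discr K = D ∧ Q.D = D := by
  obtain ⟨t, k, ht, hk⟩ := exists_tk hD
  have ht2 : t ^ 2 = t := by rcases ht with rfl | rfl <;> norm_num
  have := fact_of hD ht2 hk
  have hDR : (D : ℝ) < 0 := by exact_mod_cast hneg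
  have hs1 : (√(-(D : ℝ))) ^ 2 = -((t : ℝ) + 4 * k) := by
    rw [Real.sq_sqrt (by linarith), hk]; push_cast; ring
  have hspos : 0 < √(-(D : ℝ)) := Real.sqrt_pos.2 (by linarith)
  have hω : (om : 𝓞 (QuadraticAlgebra ℚ (k : ℚ) (t : ℚ))) * om =
      (k : 𝓞 (QuadraticAlgebra ℚ (k : ℚ) (t : ℚ))) +
        (t : 𝓞 (QuadraticAlgebra ℚ (k : ℚ) (t : ℚ))) * om := by
    apply RingOfIntegers.ext
    simp only [map_mul, map_add, map_intCast, om_coe]
    rw [QuadraticAlgebra.omega_mul_omega_eq_add]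
    apply QuadraticAlgebra.ext <;> simp
  set σ : QuadraticAlgebra ℚ (k : ℚ) (t : ℚ) →+* ℂ := (embC _ hs1 ht2).toRingHom with hσ
  have a1 : ∀ z, σ z = z.re + z.im * (((t : ℂ) + Complex.I * (√(-(D : ℝ)) : ℝ)) / 2) :=
    embC_apply _ hs1 ht2
  have c1 : ∀ z : QuadraticAlgebra ℚ (k : ℚ) (t : ℚ), ‖σ (star z)‖ = ‖σ z‖ := by
    intro z
    have : σ (star z) = (starRingEnd ℂ) (σ z) := by
      rw [a1, a1, QuadraticAlgebra.re_star, QuadraticAlgebra.im_star]
      simp only [map_add, map_mul, map_div₀, Complex.conj_I, Complex.conj_ofReal, map_ratCast,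
        map_intCast, map_ofNat]
      push_cast
      ring
    rw [this, Complex.norm_conj]
  have h1 : σ (om : 𝓞 (QuadraticAlgebra ℚ (k : ℚ) (t : ℚ))) =
      ((t : ℂ) + Complex.I * (√(-(D : ℝ)) : ℝ)) / 2 := by
    rw [a1, om_coe]
    simp
  have hnorm : ∀ a : 𝓞 (QuadraticAlgebra ℚ (k : ℚ) (t : ℚ)),
      ((Algebra.norm ℤ a : ℤ) : ℝ) = ‖σ a‖ * ‖σ a‖ := by
    intro a
    have h1 : ((Algebra.norm ℤ a : ℤ) : ℚ) = _ := Algebra.coe_norm_int a
    rw [norm_eq] at h1
    have h2 : ((Algebra.norm ℤ a : ℤ) : ℝ) = (((Algebra.norm ℤ a : ℤ) : ℚ) : ℝ) := by simp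
    have h3 : (t : ℝ) ^ 2 = t := by exact_mod_cast ht2
    have h4 : σ a = (((a : QuadraticAlgebra ℚ (k : ℚ) (t : ℚ)).re +
        (a : QuadraticAlgebra ℚ (k : ℚ) (t : ℚ)).im * t / 2 : ℝ) : ℂ) +
        (((a : QuadraticAlgebra ℚ (k : ℚ) (t : ℚ)).im * √(-(D : ℝ)) / 2 : ℝ) : ℂ) * Complex.I := by
      rw [a1]
      push_cast
      ring
    rw [h2, h1, Complex.norm_mul_self_eq_normSq, h4, Complex.normSq_add_mul_I]
    push_cast
    linear_combination ((a : QuadraticAlgebra ℚ (k : ℚ) (t : ℚ)).im : ℝ) ^ 2 * (1 / 4) * (-hs1 - h3)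
  refine ⟨QuadraticAlgebra ℚ (k : ℚ) (t : ℚ), inferInstance, inferInstance,
    { D := D
      hD := hD
      ω := om
      t := t
      k := k
      ht := ht
      hk := hk
      hω := hω
      hspan := coords_int hD ht2 hk
      cj := conjO
      cj_ω := conjO_om
      v₁ := fun a => ‖(σ.comp (algebraMap (𝓞 _) _)) a‖
      v₂ := fun a => ‖(σ.comp (algebraMap (𝓞 _) _)) a‖
      v₁_nonneg := fun a => norm_nonneg _
      v₂_nonneg := fun a => norm_nonneg _
      v₁_mul := fun a b => by rw [map_mul, norm_mul]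
      v₂_mul := fun a b => by rw [map_mul, norm_mul]
      v₁_add := fun a b => by rw [map_add]; exact norm_add_le _ _
      v₂_add := fun a b => by rw [map_add]; exact norm_add_le _ _
      v₁_int := fun m => by rw [map_intCast, Complex.norm_intCast]
      v₂_int := fun m => by rw [map_intCast, Complex.norm_intCast]
      v₁_cj := fun a => c1 a
      v₂_cj := fun a => c1 a
      hnorm := fun a => by
        show _ = ‖σ a‖ * ‖σ a‖
        rw [Ideal.absNorm_span_singleton, ← hnorm, Nat.cast_natAbs]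
        have h0 : 0 ≤ Algebra.norm ℤ a := by
          have : (0 : ℝ) ≤ ((Algebra.norm ℤ a : ℤ) : ℝ) := by
            rw [hnorm]; positivity
          exact_mod_cast this
        rw [abs_of_nonneg h0]
      himag := fun _ a => rfl
      hmink := ?_ },
    QuadraticAlgebra.finrank_eq_two _ _, discr_eq hD ht2 hk, rfl⟩
  intro I hI A B hA hB hAB hAB2
  rw [abs_of_neg hDR] at hAB
  have h := hAB2 hneg
  subst h
  obtain ⟨x, hx, hx0, hx1⟩ := mink_imag hD ht hk hω σ _ hspos h1 I hI A hA hAB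
  exact ⟨x, hx, hx0, hx1, hx1⟩

end Pool.Agent.helper3.FT
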